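import Mathlib

/-!
# One down-compression of a family of small diameter which is a ball
-/

set_option autoImplicit false

open Finset

namespace Pool.Agent.Helper72.KL

theorem rev_sw {ι : Type} [DecidableEq ι] (d : ℕ) (x : ι) (P : Finset ι → Prop)
    (hstep : ∀ u u', x ∉ u → x ∉ u' → #u = d → #u' = d → #(u ∪ u') ≤ d + 1 → P u → P u') :
    ∀ n, ∀ u w, x ∉ u → x ∉ w → #u = d → #w = d → #(w \ u) = n → P u → P w := by
  intro n
  induction n with
  | zero =>
    intro u w hxu hxw hu hw h hP
    have h1 : w ⊆ u := sdiff_eq_empty_iff_subset.mp (card_eq_zero.mp h)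
    have h2 : w = u := eq_of_subset_of_card_le h1 (by omega)
    rw [h2]
    exact hP
  | succ n ih =>
    intro u w hxu hxw hu hw h hP
    have h1 : (w \ u).Nonempty := card_pos.mp (by omega)
    obtain ⟨b, hb⟩ := h1
    have h2 : (u \ w).Nonempty := by
      rw [← card_pos]
      have e1 := card_sdiff_add_card_inter w u
      have e2 := card_sdiff_add_card_inter u w
      rw [inter_comm] at e2
      omega
    obtain ⟨a, ha⟩ := h2
    rw [mem_sdiff] at ha hb
    have hxb : x ≠ b := fun e => hxw (e ▸ hb.1)
    have hb' : b ∉ u.erase a := fun hh => hb.2 (mem_of_mem_erase hh)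
    have hc1 : #(u.erase a) = d - 1 := by rw [card_erase_of_mem ha.1, hu]
    have hpos : 0 < d := by
      rw [← hu]
      exact card_pos.mpr ⟨a, ha.1⟩
    have hc2 : #(insert b (u.erase a)) = d := by
      rw [card_insert_of_notMem hb', hc1]
      omega
    have hx2 : x ∉ insert b (u.erase a) := by
      rw [mem_insert]
      rintro (hh | hh)
      · exact hxb hh
      · exact hxu (mem_of_mem_erase hh)
    have hun : #(u ∪ insert b (u.erase a)) ≤ d + 1 := by
      have hsub : u ∪ insert b (u.erase a) ⊆ insert b u := by
        intro y hy
        rw [mem_union, mem_insert, mem_erase] at hy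
        rw [mem_insert]
        tauto
      have := card_le_card hsub
      rw [card_insert_of_notMem hb.2, hu] at this
      exact this
    have hP2 := hstep u _ hxu hx2 hu hc2 hun hP
    refine ih (insert b (u.erase a)) w hx2 hxw hc2 hw ?_ hP2
    have hset : w \ insert b (u.erase a) = (w \ u).erase b := by
      ext y
      rw [mem_sdiff, mem_insert, mem_erase, mem_erase, mem_sdiff]
      constructor
      · rintro ⟨hy1, hy2⟩
        refine ⟨fun e => hy2 (Or.inl e), hy1, fun hy3 => hy2 (Or.inr ⟨?_, hy3⟩)⟩
        rintro rfl
        exact ha.2 hy1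
      · rintro ⟨hy1, hy2, hy3⟩
        refine ⟨hy2, ?_⟩
        rintro (e | e)
        · exact hy1 e
        · exact hy3 e.2
    rw [hset, card_erase_of_mem (mem_sdiff.mpr hb), h]
    omega

theorem rev (ι : Type) [Fintype ι] [DecidableEq ι] (d : ℕ) (F : Finset (Finset ι)) (x : ι)
    (hm : 2 * d + 2 ≤ Fintype.card ι)
    (hF : ∀ A ∈ F, ∀ B ∈ F, #(symmDiff A B) ≤ 2 * d) (C : Finset ι)
    (hC : Down.compression x F = univ.filter (fun A => #(symmDiff A C) ≤ d)) :
    ∃ C', F = univ.filter (fun A => #(symmDiff A C') ≤ d) := by
  have hmem : ∀ s, s ∈ Down.compression x F ↔ #(symmDiff s C) ≤ d := by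
    intro s
    rw [hC, mem_filter]
    exact ⟨fun h => h.2, fun h => ⟨mem_univ _, h⟩⟩
  have hcx : #((univ : Finset ι).erase x) = Fintype.card ι - 1 := by
    rw [card_erase_of_mem (mem_univ x), card_univ]
  -- the point `x` is outside `C`
  have hxC : x ∉ C := by
    intro hx
    obtain ⟨U, hU1, hU2⟩ := exists_subset_card_eq (s := (univ : Finset ι).erase x) (n := d)
      (by rw [hcx]; omega)
    have hxU : x ∉ U := fun h => (notMem_erase x univ) (hU1 h)
    have h1 : symmDiff C U ∈ Down.compression x F := by
      rw [hmem]
      have : symmDiff (symmDiff C U) C = U := by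
        ext y
        simp only [mem_symmDiff]
        tauto
      rw [this, hU2]
    have h2 := Down.erase_mem_compression_of_mem_compression h1
    rw [hmem] at h2
    have : symmDiff ((symmDiff C U).erase x) C = insert x U := by
      ext y
      simp only [mem_symmDiff, mem_erase, mem_insert]
      by_cases hy : y = x
      · subst hy
        tauto
      · tauto
    rw [this, card_insert_of_notMem hxU] at h2
    omega
  -- membership in terms of `u = A ∆ C`
  have hins : ∀ u, x ∉ u → insert x (symmDiff C u) = symmDiff C (insert x u) := by
    intro u hu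
    ext y
    simp only [mem_symmDiff, mem_insert]
    by_cases hy : y = x
    · subst hy
      tauto
    · tauto
  have hnot : ∀ u, x ∉ u → x ∉ symmDiff C u := by
    intro u hu
    rw [mem_symmDiff]
    tauto
  have hdist : ∀ u, symmDiff (symmDiff C u) C = u := by
    intro u
    ext y
    simp only [mem_symmDiff]
    tauto
  have hor : ∀ u, x ∉ u → ((symmDiff C u ∈ F ∨ symmDiff C (insert x u) ∈ F) ↔ #u ≤ d) := by
    intro u hu
    have h := hmem (symmDiff C u)
    rw [hdist, Down.mem_compression, erase_eq_of_notMem (hnot u hu), hins u hu] at h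
    rw [← h]
    tauto
  have hand : ∀ u, x ∉ u → ((symmDiff C u ∈ F ∧ symmDiff C (insert x u) ∈ F) ↔ #u + 1 ≤ d) := by
    intro u hu
    have h := hmem (insert x (symmDiff C u))
    rw [Down.mem_compression, erase_insert (hnot u hu), insert_idem, hins u hu, hdist,
      card_insert_of_notMem hu] at h
    rw [← h]
    tauto
  -- disjoint sets
  have hdis : ∀ u v, x ∉ u → x ∉ v → #u = d → #v = d → Disjoint u v →
      symmDiff C u ∈ F → symmDiff C v ∈ F := by
    intro u v hu hv hud hvd huv h1
    by_contra h2
    have h3 : symmDiff C (insert x v) ∈ F := ((hor v hv).mpr hvd.le).resolve_left h2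
    have h4 := hF _ h1 _ h3
    have h5 : symmDiff (symmDiff C u) (symmDiff C (insert x v)) = insert x (u ∪ v) := by
      ext y
      have hy' : y ∈ u → y ∉ v := fun a b => (disjoint_left.mp huv) a b
      simp only [mem_symmDiff, mem_insert, mem_union]
      by_cases hy : y = x
      · subst hy
        tauto
      · tauto
    rw [h5, card_insert_of_notMem (by rw [mem_union]; tauto), card_union_of_disjoint huv] at h4
    omega
  have hstep : ∀ u u', x ∉ u → x ∉ u' → #u = d → #u' = d → #(u ∪ u') ≤ d + 1 →
      symmDiff C u ∈ F → symmDiff C u' ∈ F := by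
    intro u u' hu hu' hud hud' hun h1
    have hcard : d ≤ #(((univ : Finset ι).erase x) \ (u ∪ u')) := by
      have h2 : u ∪ u' ⊆ (univ : Finset ι).erase x := by
        intro y hy
        rw [mem_erase]
        refine ⟨?_, mem_univ y⟩
        rintro rfl
        rw [mem_union] at hy
        tauto
      rw [card_sdiff_of_subset h2, hcx]
      omega
    obtain ⟨v, hv1, hv2⟩ := exists_subset_card_eq hcard
    have hxv : x ∉ v := fun h => (notMem_erase x univ) (mem_sdiff.mp (hv1 h)).1
    have hd1 : Disjoint u v := by
      rw [disjoint_left]
      intro y hy1 hy2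
      exact (mem_sdiff.mp (hv1 hy2)).2 (mem_union_left _ hy1)
    have hd2 : Disjoint v u' := by
      rw [disjoint_left]
      intro y hy1 hy2
      exact (mem_sdiff.mp (hv1 hy1)).2 (mem_union_right _ hy2)
    exact hdis v u' hxv hu' hv2 hud' hd2 (hdis u v hu hxv hud hv2 hd1 h1)
  have hall : ∀ u w, x ∉ u → x ∉ w → #u = d → #w = d → symmDiff C u ∈ F → symmDiff C w ∈ F :=
    fun u w hu hw hud hwd h =>
      rev_sw d x (fun u => symmDiff C u ∈ F) hstep _ u w hu hw hud hwd rfl h
  obtain ⟨U, hU1, hU2⟩ := exists_subset_card_eq (s := (univ : Finset ι).erase x) (n := d)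
    (by rw [hcx]; omega)
  have hxU : x ∉ U := fun h => (notMem_erase x univ) (hU1 h)
  have hback : ∀ A : Finset ι, symmDiff C (symmDiff A C) = A := by
    intro A
    ext y
    simp only [mem_symmDiff]
    tauto
  by_cases hcase : symmDiff C U ∈ F
  · refine ⟨C, ?_⟩
    ext A
    rw [mem_filter]
    have key : ∀ w, symmDiff C w ∈ F ↔ #w ≤ d := by
      intro w
      by_cases hxw : x ∈ w
      · have hu : x ∉ w.erase x := notMem_erase x w
        have hw : insert x (w.erase x) = w := insert_erase hxw
        have hcw : #w = #(w.erase x) + 1 := by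
          rw [← card_insert_of_notMem hu, hw]
        have e1 := hor _ hu
        have e2 := hand _ hu
        rw [hw] at e1 e2
        constructor
        · intro h
          have h3 := e1.mp (Or.inr h)
          by_contra h4
          have h5 : #(w.erase x) = d := by omega
          have h6 := hall U _ hxU hu hU2 h5 hcase
          have h7 := e2.mp ⟨h6, h⟩
          omega
        · intro h
          exact (e2.mpr (by omega)).2
      · have e1 := hor _ hxw
        have e2 := hand _ hxw
        constructor
        · intro h
          exact e1.mp (Or.inl h)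
        · intro h
          by_cases h5 : #w = d
          · exact hall U _ hxU hxw hU2 h5 hcase
          · exact (e2.mpr (by omega)).1
    have := key (symmDiff A C)
    rw [hback] at this
    rw [this]
    exact ⟨fun h => ⟨mem_univ _, h⟩, fun h => h.2⟩
  · refine ⟨insert x C, ?_⟩
    ext A
    rw [mem_filter]
    have hno : ∀ u, x ∉ u → #u = d → symmDiff C u ∉ F := fun u hu hud h =>
      hcase (hall u U hu hxU hud hU2 h)
    have key : ∀ w, symmDiff C w ∈ F ↔ #(symmDiff w {x}) ≤ d := by
      intro w
      by_cases hxw : x ∈ w
      · have hu : x ∉ w.erase x := notMem_erase x w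
        have hw : insert x (w.erase x) = w := insert_erase hxw
        have hs : symmDiff w {x} = w.erase x := by
          ext y
          simp only [mem_symmDiff, mem_singleton, mem_erase]
          by_cases hy : y = x
          · subst hy
            tauto
          · tauto
        have e1 := hor _ hu
        have e2 := hand _ hu
        rw [hw] at e1 e2
        rw [hs]
        constructor
        · intro h
          exact e1.mp (Or.inr h)
        · intro h
          by_cases h5 : #(w.erase x) = d
          · exact (e1.mpr h).resolve_left (hno _ hu h5)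
          · exact (e2.mpr (by omega)).2
      · have e1 := hor _ hxw
        have e2 := hand _ hxw
        have hs : symmDiff w {x} = insert x w := by
          ext y
          simp only [mem_symmDiff, mem_singleton, mem_insert]
          by_cases hy : y = x
          · subst hy
            tauto
          · tauto
        rw [hs, card_insert_of_notMem hxw]
        constructor
        · intro h
          have h3 := e1.mp (Or.inl h)
          by_contra h4
          have h5 : #w = d := by omega
          exact hno w hxw h5 h
        · intro h
          exact (e2.mpr h).1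
    have h1 := key (symmDiff A C)
    rw [hback] at h1
    have h2 : symmDiff (symmDiff A C) {x} = symmDiff A (insert x C) := by
      ext y
      simp only [mem_symmDiff, mem_singleton, mem_insert]
      by_cases hy : y = x
      · subst hy
        tauto
      · tauto
    rw [h1, h2]
    exact ⟨fun h => ⟨mem_univ _, h⟩, fun h => h.2⟩

end Pool.Agent.Helper72.KL
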