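import Mathlib

/-!
# Katona's theorem on families with small unions, with uniqueness
-/

set_option autoImplicit false

open Finset

namespace Pool.Agent.Helper72.KL

theorem mem_c {G : Finset (Finset ℕ)} {i j : ℕ} {A : Finset ℕ}
    (h : A ∈ UV.compression {i} {j} G) :
    (A ∈ G ∧ (j ∈ A → i ∉ A → (A ∪ {i}) \ {j} ∈ G)) ∨
      ∃ A0 ∈ G, j ∈ A0 ∧ i ∉ A0 ∧ A = (A0 ∪ {i}) \ {j} := by
  rw [UV.mem_compression] at h
  rcases h with ⟨h1, h2⟩ | ⟨h1, B, hB, h2⟩
  · left
    refine ⟨h1, fun hj hi => ?_⟩
    unfold UV.compress at h2
    rw [if_pos ⟨disjoint_singleton_left.mpr hi, singleton_subset_iff.mpr hj⟩] at h2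
    exact h2
  · right
    unfold UV.compress at h2
    split_ifs at h2 with hc
    · exact ⟨B, hB, singleton_subset_iff.mp hc.2, disjoint_singleton_left.mp hc.1, h2.symm⟩
    · exact absurd (h2 ▸ hB) h1

theorem card_swap {S : Finset ℕ} {i j : ℕ} (hj : j ∈ S) : #((S ∪ {i}) \ {j}) ≤ #S := by
  have h1 : j ∈ S ∪ {i} := mem_union_left _ hj
  rw [card_sdiff_of_subset (singleton_subset_iff.mpr h1), card_singleton]
  have h2 := card_union_le S {i}
  rw [card_singleton] at h2
  omega

theorem union_c {G : Finset (Finset ℕ)} {s i j : ℕ}
    (hU : ∀ A ∈ G, ∀ B ∈ G, #(A ∪ B) ≤ s) :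
    ∀ A ∈ UV.compression {i} {j} G, ∀ B ∈ UV.compression {i} {j} G, #(A ∪ B) ≤ s := by
  have key : ∀ A0 ∈ G, j ∈ A0 → i ∉ A0 → ∀ B ∈ G, (j ∈ B → i ∉ B → (B ∪ {i}) \ {j} ∈ G) →
      #((A0 ∪ {i}) \ {j} ∪ B) ≤ s := by
    intro A0 hA0 hj hi B hB hB'
    by_cases hjB : j ∈ B
    · by_cases hiB : i ∈ B
      · refine (card_le_card ?_).trans (hU A0 hA0 B hB)
        intro x hx
        simp only [mem_union, mem_sdiff, mem_singleton] at hx ⊢
        rcases hx with ⟨h1 | h1, -⟩ | h1
        · exact Or.inl h1
        · exact Or.inr (h1 ▸ hiB)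
        · exact Or.inr h1
      · refine (card_le_card ?_).trans (hU A0 hA0 _ (hB' hjB hiB))
        intro x hx
        simp only [mem_union, mem_sdiff, mem_singleton] at hx ⊢
        by_cases hxj : x = j
        · exact Or.inl (hxj ▸ hj)
        · rcases hx with ⟨h1 | h1, -⟩ | h1
          · exact Or.inl h1
          · exact Or.inr ⟨Or.inr h1, hxj⟩
          · exact Or.inr ⟨Or.inl h1, hxj⟩
    · refine (card_le_card ?_).trans ((card_swap (i := i) (mem_union_left B hj)).trans
        (hU A0 hA0 B hB))
      intro x hx
      simp only [mem_union, mem_sdiff, mem_singleton] at hx ⊢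
      rcases hx with ⟨h1 | h1, h2⟩ | h1
      · exact ⟨Or.inl (Or.inl h1), h2⟩
      · exact ⟨Or.inr h1, h2⟩
      · exact ⟨Or.inl (Or.inr h1), fun h => hjB (h ▸ h1)⟩
  intro A hA B hB
  rcases mem_c hA with ⟨hA1, hA2⟩ | ⟨A0, hA0, hjA, hiA, rfl⟩
  · rcases mem_c hB with ⟨hB1, hB2⟩ | ⟨B0, hB0, hjB, hiB, rfl⟩
    · exact hU A hA1 B hB1
    · rw [union_comm]
      exact key B0 hB0 hjB hiB A hA1 hA2
  · rcases mem_c hB with ⟨hB1, hB2⟩ | ⟨B0, hB0, hjB, hiB, rfl⟩
    · exact key A0 hA0 hjA hiA B hB1 hB2
    · refine (card_le_card ?_).trans ((card_swap (i := i) (mem_union_left B0 hjA)).trans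
        (hU A0 hA0 B0 hB0))
      intro x hx
      simp only [mem_union, mem_sdiff, mem_singleton] at hx ⊢
      tauto

/-- Shifted with respect to the last element. -/
def Sh (m : ℕ) (G : Finset (Finset ℕ)) : Prop :=
  ∀ A ∈ G, m ∈ A → ∀ i < m, i ∉ A → (A ∪ {i}) \ {m} ∈ G

theorem exists_sh (m s d : ℕ) : ∀ (k : ℕ) (G : Finset (Finset ℕ)), #(G.filter fun A => m ∈ A) ≤ k →
    (∀ A ∈ G, A ⊆ range (m + 1)) → (∀ A ∈ G, ∀ B ∈ G, #(A ∪ B) ≤ s) →
    ∃ G' : Finset (Finset ℕ), Sh m G' ∧ (∀ A ∈ G', A ⊆ range (m + 1)) ∧
      (∀ A ∈ G', ∀ B ∈ G', #(A ∪ B) ≤ s) ∧ #G' = #G ∧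
      ((∃ A ∈ G, d < #A) → ∃ A ∈ G', d < #A) := by
  intro k
  induction k with
  | zero =>
    intro G hk hG hU
    refine ⟨G, ?_, hG, hU, rfl, id⟩
    intro A hA hm
    have h1 : A ∈ G.filter fun A => m ∈ A := mem_filter.mpr ⟨hA, hm⟩
    rw [card_eq_zero.mp (Nat.le_zero.mp hk)] at h1
    exact absurd h1 (notMem_empty _)
  | succ k ih =>
    intro G hk hG hU
    by_cases hS : Sh m G
    · exact ⟨G, hS, hG, hU, rfl, id⟩
    · unfold Sh at hS
      push Not at hS
      obtain ⟨A, hA, hmA, i, hi, hiA, hn⟩ := hS
      have hG' : ∀ B ∈ UV.compression {i} {m} G, B ⊆ range (m + 1) := by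
        intro B hB
        rcases mem_c hB with ⟨hB1, -⟩ | ⟨B0, hB0, -, -, rfl⟩
        · exact hG B hB1
        · intro x hx
          simp only [mem_union, mem_sdiff, mem_singleton] at hx
          rcases hx with ⟨h1 | h1, -⟩
          · exact hG B0 hB0 h1
          · rw [h1, mem_range]
            omega
      have hlt : #((UV.compression {i} {m} G).filter fun B => m ∈ B) <
          #(G.filter fun B => m ∈ B) := by
        refine card_lt_card ⟨?_, ?_⟩
        · intro B hB
          obtain ⟨hB1, hB2⟩ := mem_filter.mp hB
          rcases mem_c hB1 with ⟨hB3, -⟩ | ⟨B0, hB0, -, -, rfl⟩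
          · exact mem_filter.mpr ⟨hB3, hB2⟩
          · exact absurd hB2 (by simp)
        · intro hsub
          have h1 := hsub (mem_filter.mpr ⟨hA, hmA⟩)
          obtain ⟨h2, -⟩ := mem_filter.mp h1
          rcases mem_c h2 with ⟨-, h3⟩ | ⟨B0, hB0, -, -, h3⟩
          · exact hn (h3 hmA hiA)
          · rw [h3] at hmA
            exact absurd hmA (by simp)
      obtain ⟨G', h1, h2, h3, h4, h5⟩ := ih (UV.compression {i} {m} G) (by omega) hG'
        (union_c hU)
      refine ⟨G', h1, h2, h3, h4.trans (UV.card_compression _ _ _), ?_⟩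
      rintro ⟨B, hB, hd⟩
      refine h5 ⟨UV.compress {i} {m} B, UV.compress_mem_compression hB, ?_⟩
      rwa [UV.card_compress (by rw [card_singleton, card_singleton])]

theorem card_small (m d : ℕ) :
    #((range m).powerset.filter fun A => #A ≤ d) = ∑ i ∈ range (d + 1), m.choose i := by
  have h1 : (range m).powerset.filter (fun A => #A ≤ d) =
      (range (d + 1)).biUnion fun i => powersetCard i (range m) := by
    ext A
    simp only [mem_filter, mem_powerset, mem_biUnion, mem_range, mem_powersetCard]
    constructor
    · rintro ⟨h1, h2⟩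
      exact ⟨#A, by omega, h1, rfl⟩
    · rintro ⟨i, h1, h2, h3⟩
      exact ⟨h2, by omega⟩
  rw [h1, card_biUnion]
  · refine sum_congr rfl fun i _ => ?_
    rw [card_powersetCard, card_range]
  · intro i _ j _ hij
    exact pairwise_disjoint_powersetCard _ hij

theorem pascal (m d : ℕ) : ∑ i ∈ range (d + 2), (m + 1).choose i =
    ∑ i ∈ range (d + 2), m.choose i + ∑ i ∈ range (d + 1), m.choose i := by
  rw [sum_range_succ', sum_range_succ' (fun i => m.choose i) (d + 1)]
  simp only [Nat.choose_succ_succ, Nat.choose_zero_right, sum_add_distrib, Nat.succ_eq_add_one]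
  ring

theorem kl1 (m d : ℕ) (hm : 2 * d + 1 ≤ m) (G : Finset (Finset ℕ)) (hG : ∀ A ∈ G, A ⊆ range m)
    (hU : ∀ A ∈ G, ∀ B ∈ G, #(A ∪ B) ≤ 2 * d) :
    #G ≤ ∑ i ∈ range (d + 1), m.choose i ∧ (2 * d + 2 ≤ m →
      #G = ∑ i ∈ range (d + 1), m.choose i → G = (range m).powerset.filter (fun A => #A ≤ d)) := by
  induction m generalizing d G with
  | zero => omega
  | succ m ih =>
    by_cases hmd : m = 2 * d
    · -- complementary sets
      refine ⟨?_, fun h => by omega⟩
      rw [hmd, Nat.sum_range_choose_halfway]
      have h1 : #(G.image fun A => range (m + 1) \ A) = #G := by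
        refine card_image_of_injOn ?_
        intro A hA B hB hAB
        have h2 : range (m + 1) \ (range (m + 1) \ A) = range (m + 1) \ (range (m + 1) \ B) :=
          congrArg (fun S => range (m + 1) \ S) hAB
        rwa [Finset.sdiff_sdiff_eq_self (hG A hA), Finset.sdiff_sdiff_eq_self (hG B hB)] at h2
      have h2 : Disjoint G (G.image fun A => range (m + 1) \ A) := by
        rw [disjoint_left]
        intro B hB hB'
        obtain ⟨A, hA, rfl⟩ := mem_image.mp hB'
        have h3 := hU A hA _ hB
        rw [union_sdiff_of_subset (hG A hA), card_range] at h3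
        omega
      have h3 : #(G ∪ G.image fun A => range (m + 1) \ A) ≤ #(range (m + 1)).powerset := by
        refine card_le_card ?_
        intro B hB
        rw [mem_powerset]
        rcases mem_union.mp hB with h4 | h4
        · exact hG B h4
        · obtain ⟨A, hA, rfl⟩ := mem_image.mp h4
          exact sdiff_subset
      rw [card_union_of_disjoint h2, h1, card_powerset, card_range, hmd, pow_succ, pow_mul] at h3
      norm_num at h3
      omega
    · have hm' : 2 * d + 1 ≤ m := by omega
      obtain ⟨G', hS, hG', hU', hc, hb⟩ := exists_sh m (2 * d) d _ G le_rfl hG hU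
      -- the bound and the sizes for the shifted family
      have main : #G' ≤ ∑ i ∈ range (d + 1), (m + 1).choose i ∧
          (#G' = ∑ i ∈ range (d + 1), (m + 1).choose i → ∀ A ∈ G', #A ≤ d) := by
        rcases Nat.eq_zero_or_pos d with hd0 | hd0
        · subst hd0
          have h1 : ∀ A ∈ G', #A ≤ 0 := by
            intro A hA
            have h2 := hU' A hA A hA
            rw [union_self] at h2
            omega
          refine ⟨?_, fun _ => h1⟩
          have h2 : G' ⊆ {∅} := by
            intro A hA
            rw [mem_singleton]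
            exact card_eq_zero.mp (Nat.le_zero.mp (h1 A hA))
          have h3 := card_le_card h2
          rw [card_singleton] at h3
          simpa using h3
        · obtain ⟨e, rfl⟩ : ∃ e, d = e + 1 := ⟨d - 1, by omega⟩
          obtain ⟨G0, hG0⟩ : ∃ G0, G0 = G'.filter fun A => m ∉ A := ⟨_, rfl⟩
          obtain ⟨G1, hG1⟩ : ∃ G1, G1 = (G'.filter fun A => m ∈ A).image fun A => A.erase m :=
            ⟨_, rfl⟩
          have r0 : ∀ A ∈ G0, A ⊆ range m := by
            intro A hA x hx
            rw [hG0, mem_filter] at hA
            have h1 := mem_range.mp (hG' A hA.1 hx)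
            rw [mem_range]
            have h2 : x ≠ m := fun h => hA.2 (h ▸ hx)
            omega
          have u0 : ∀ A ∈ G0, ∀ B ∈ G0, #(A ∪ B) ≤ 2 * (e + 1) := by
            intro A hA B hB
            rw [hG0, mem_filter] at hA hB
            exact hU' A hA.1 B hB.1
          have m1 : ∀ A, A ∈ G1 → m ∉ A ∧ insert m A ∈ G' := by
            intro A hA
            rw [hG1, mem_image] at hA
            obtain ⟨B, hB, rfl⟩ := hA
            rw [mem_filter] at hB
            refine ⟨notMem_erase m B, ?_⟩
            rw [insert_erase hB.2]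
            exact hB.1
          have r1 : ∀ A ∈ G1, A ⊆ range m := by
            intro A hA x hx
            obtain ⟨h1, h2⟩ := m1 A hA
            have h3 := mem_range.mp (hG' _ h2 (mem_insert_of_mem hx))
            have h4 : x ≠ m := fun h => h1 (h ▸ hx)
            rw [mem_range]
            omega
          have u1 : ∀ A ∈ G1, ∀ B ∈ G1, #(A ∪ B) ≤ 2 * e := by
            intro A hA B hB
            obtain ⟨hA1, hA2⟩ := m1 A hA
            obtain ⟨hB1, hB2⟩ := m1 B hB
            have h1 := hU' _ hA2 _ hB2
            have h2 : insert m A ∪ insert m B = insert m (A ∪ B) := by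
              rw [insert_union, union_insert, insert_idem]
            have h3 : m ∉ A ∪ B := by
              rw [mem_union]
              tauto
            rw [h2, card_insert_of_notMem h3] at h1
            by_contra hcon
            have h4 : #(A ∪ B) = 2 * e + 1 := by omega
            obtain ⟨i, hi, hi'⟩ : ∃ i ∈ range m, i ∉ A ∪ B := by
              by_contra h5
              push Not at h5
              have h6 := card_le_card (show range m ⊆ A ∪ B from h5)
              rw [card_range] at h6
              omega
            rw [mem_range] at hi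
            have hiB : i ∉ insert m B := by
              rw [mem_insert]
              rintro (h5 | h5)
              · omega
              · exact hi' (mem_union_right _ h5)
            have h5 := hS _ hB2 (mem_insert_self m B) i hi hiB
            have h6 := hU' _ hA2 _ h5
            have h7 : insert m A ∪ (insert m B ∪ {i}) \ {m} = insert m (insert i (A ∪ B)) := by
              ext x
              simp only [mem_union, mem_insert, mem_sdiff, mem_singleton]
              tauto
            rw [h7, card_insert_of_notMem (by
              rw [mem_insert]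
              rintro (h8 | h8)
              · omega
              · exact h3 h8), card_insert_of_notMem hi'] at h6
            omega
          obtain ⟨b0, -⟩ := ih (e + 1) hm' G0 r0 u0
          obtain ⟨b1, q1⟩ := ih e (by omega) G1 r1 u1
          have hcard : #G' = #G0 + #G1 := by
            have h1 : #G1 = #(G'.filter fun A => m ∈ A) := by
              rw [hG1]
              refine card_image_of_injOn ?_
              intro A hA B hB hAB
              have hA' := (mem_filter.mp hA).2
              have hB' := (mem_filter.mp hB).2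
              rw [← insert_erase hA', ← insert_erase hB']
              exact congrArg _ hAB
            rw [h1, hG0, add_comm]
            exact (card_filter_add_card_filter_not _).symm
          have hp : ∑ i ∈ range (e + 1 + 1), (m + 1).choose i =
              ∑ i ∈ range (e + 1 + 1), m.choose i + ∑ i ∈ range (e + 1), m.choose i := pascal m e
          refine ⟨by omega, fun heq => ?_⟩
          have e1 : #G1 = ∑ i ∈ range (e + 1), m.choose i := by omega
          have hG1' := q1 (by omega) e1
          intro C hC
          by_cases hmC : m ∈ C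
          · have h1 : C.erase m ∈ G1 := by
              rw [hG1]
              exact mem_image_of_mem _ (mem_filter.mpr ⟨hC, hmC⟩)
            rw [hG1', mem_filter] at h1
            have h2 := card_erase_of_mem hmC
            omega
          · by_contra hcon
            have hC0 : C ⊆ range m := r0 C (by
              rw [hG0]
              exact mem_filter.mpr ⟨hC, hmC⟩)
            have h1 : #(range m \ C) = m - #C := by
              rw [card_sdiff_of_subset hC0, card_range]
            have h0 := card_le_card hC0
            rw [card_range] at h0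
            obtain ⟨A, hA, hA'⟩ := exists_subset_card_eq
              (show min e (m - #C) ≤ #(range m \ C) by
                rw [h1]
                exact min_le_right _ _)
            have h2 : A ∈ G1 := by
              rw [hG1', mem_filter, mem_powerset]
              exact ⟨hA.trans sdiff_subset, by rw [hA']; exact min_le_left _ _⟩
            have h3 := hU' _ (m1 A h2).2 C hC
            have h4 : Disjoint A C := disjoint_of_subset_left hA disjoint_sdiff_self_left
            rw [insert_union, card_insert_of_notMem (by
              rw [mem_union]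
              rintro (h5 | h5)
              · exact (m1 A h2).1 h5
              · exact hmC h5), card_union_of_disjoint h4, hA'] at h3
            rcases le_total e (m - #C) with h5 | h5
            · rw [min_eq_left h5] at h3
              omega
            · rw [min_eq_right h5] at h3
              omega
      refine ⟨hc ▸ main.1, fun _ heq => ?_⟩
      have h1 : G ⊆ (range (m + 1)).powerset.filter (fun A => #A ≤ d) := by
        intro A hA
        rw [mem_filter, mem_powerset]
        refine ⟨hG A hA, ?_⟩
        by_contra hcon
        obtain ⟨B, hB, hB'⟩ := hb ⟨A, hA, by omega⟩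
        have := main.2 (hc.trans heq) B hB
        omega
      exact eq_of_subset_of_card_le h1 (by rw [card_small, heq])

end Pool.Agent.Helper72.KL
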